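import Mathlib
import Pool.Agent.J4H64.MC.Def

set_option autoImplicit false

/-! Project MC, piece IND: the number of the seeds with given values of linearly independent rows. -/

namespace Pool.Agent.J4H42.MC

open Finset Filter
open Pool.Agent.J4H64.MC (par bit rvec Indep S_FEW S_ROWS S_IND)

/-- the sign of a bit -/
def sgn (x : Bool) : ℤ := if x then -1 else 1

theorem sgn_xor (x y : Bool) : sgn (xor x y) = sgn x * sgn y := by
  cases x <;> cases y <;> simp [sgn]

theorem sgn_par {ρ : Type} {t K : ℕ} (R : ρ → Fin t → Fin K) (w : Fin K → Bool) (r : ρ) : ∀ j : ℕ, j ≤ t →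
    sgn (par R w r j) = ∏ i : Fin t, if (i : ℕ) < j then sgn (w (R r i)) else 1 := by
  intro j
  induction j with
  | zero => intro _; simp [par, sgn]
  | succ j ih =>
    intro hj
    have hjt : j < t := by omega
    rw [par, dif_pos hjt, sgn_xor, ih (by omega)]
    have e : ∀ i : Fin t, (if (i : ℕ) < j + 1 then sgn (w (R r i)) else 1) =
        (if (i : ℕ) < j then sgn (w (R r i)) else 1) * (if i = ⟨j, hjt⟩ then sgn (w (R r i)) else 1) := by
      intro i
      by_cases h1 : (i : ℕ) < j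
      · have h2 : i ≠ ⟨j, hjt⟩ := by
          intro h
          rw [h] at h1
          simp at h1
        rw [if_pos h1, if_pos (by omega), if_neg h2, mul_one]
      · by_cases h2 : i = ⟨j, hjt⟩
        · have h3 : (i : ℕ) = j := by rw [h2]
          rw [if_neg h1, if_pos (by omega), if_pos h2, one_mul]
        · have h3 : (i : ℕ) ≠ j := fun h => h2 (Fin.ext h)
          rw [if_neg h1, if_neg (by omega), if_neg h2, mul_one]
    rw [prod_congr rfl (fun i _ => e i), prod_mul_distrib, prod_ite_eq' univ (⟨j, hjt⟩ : Fin t) (fun i => sgn (w (R r i)))]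
    simp

theorem sgn_bit {ρ : Type} {t K : ℕ} (R : ρ → Fin t → Fin K) (w : Fin K → Bool) (r : ρ) :
    sgn (bit R w r) = ∏ i : Fin t, sgn (w (R r i)) := by
  unfold bit
  rw [sgn_par R w r t le_rfl]
  exact prod_congr rfl fun i _ => if_pos i.2

/-- multiplicity of a coordinate in a set of rows -/
def mlt {ρ : Type} {t K : ℕ} (R : ρ → Fin t → Fin K) (T : Finset ρ) (i : Fin K) : ℕ :=
  #((T ×ˢ (univ : Finset (Fin t))).filter (fun p => R p.1 p.2 = i))

theorem sum_rvec {ρ : Type} {t K : ℕ} (R : ρ → Fin t → Fin K) (T : Finset ρ) (i : Fin K) :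
    (∑ r ∈ T, rvec R r) i = (mlt R T i : ZMod 2) := by
  unfold mlt rvec
  rw [card_filter, sum_product]
  push_cast
  rw [Finset.sum_apply]
  apply sum_congr rfl
  intro r _
  rw [Finset.sum_apply]
  apply sum_congr rfl
  intro j _
  rw [Pi.single_apply]
  by_cases h : R r j = i
  · rw [if_pos h, if_pos h.symm]
  · rw [if_neg h, if_neg (Ne.symm h)]

theorem prod_T {ρ : Type} {t K : ℕ} (R : ρ → Fin t → Fin K) (T : Finset ρ) (w : Fin K → Bool) :
    ∏ r ∈ T, sgn (bit R w r) = ∏ i : Fin K, sgn (w i) ^ mlt R T i := by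
  have h1 : ∏ r ∈ T, sgn (bit R w r) = ∏ p ∈ T ×ˢ (univ : Finset (Fin t)), sgn (w (R p.1 p.2)) := by
    rw [prod_product]
    exact prod_congr rfl fun r _ => sgn_bit R w r
  rw [h1, ← prod_fiberwise' (T ×ˢ (univ : Finset (Fin t))) (fun p => R p.1 p.2) (fun i => sgn (w i))]
  apply prod_congr rfl
  intro i _
  rw [prod_const]
  rfl

theorem charsum {K : ℕ} (n : Fin K → ℕ) : ∑ w : Fin K → Bool, ∏ i, sgn (w i) ^ n i = ∏ i, (1 + (-1) ^ n i) := by
  have h := Finset.prod_univ_sum (fun _ : Fin K => (univ : Finset Bool)) (fun i x => sgn x ^ n i)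
  rw [Fintype.piFinset_univ] at h
  rw [← h]
  apply prod_congr rfl
  intro i _
  rw [Fintype.sum_bool]
  simp [sgn, add_comm]

theorem char_zero {ρ : Type} {t K : ℕ} (R : ρ → Fin t → Fin K) (T : Finset ρ) (h : ∑ r ∈ T, rvec R r ≠ 0) :
    ∑ w : Fin K → Bool, ∏ r ∈ T, sgn (bit R w r) = 0 := by
  simp only [prod_T]
  rw [charsum]
  obtain ⟨i, hi⟩ := Function.ne_iff.1 h
  rw [sum_rvec] at hi
  have ho : Odd (mlt R T i) := by
    rw [← Nat.not_even_iff_odd]
    intro he
    exact hi (by rw [Pi.zero_apply]; exact (ZMod.natCast_eq_zero_iff_even).2 he)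
  apply prod_eq_zero (mem_univ i)
  rw [ho.neg_one_pow]
  norm_num

/-- (IND) -/
theorem t_IND : S_IND := by
  intro ρ _ t K R S hS b
  classical
  have hset : {w : Fin K → Bool | ∀ r ∈ S, bit R w r = b r} =
      ((univ.filter (fun w : Fin K → Bool => ∀ r ∈ S, bit R w r = b r) : Finset (Fin K → Bool)) : Set (Fin K → Bool)) := by
    ext w
    simp
  rw [hset, Set.ncard_coe_finset]
  have h1 : ∀ w : Fin K → Bool, ∏ r ∈ S, (1 + sgn (bit R w r) * sgn (b r)) =
      if ∀ r ∈ S, bit R w r = b r then (2 : ℤ) ^ S.card else 0 := by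
    intro w
    split_ifs with h
    · rw [← prod_const]
      apply prod_congr rfl
      intro r hr
      rw [h r hr]
      cases b r <;> simp [sgn]
    · push Not at h
      obtain ⟨r, hr, hne⟩ := h
      apply prod_eq_zero hr
      revert hne
      cases bit R w r <;> cases b r <;> simp [sgn]
  have h2 : ∑ w : Fin K → Bool, ∏ r ∈ S, (1 + sgn (bit R w r) * sgn (b r)) =
      (#(univ.filter (fun w : Fin K → Bool => ∀ r ∈ S, bit R w r = b r)) : ℤ) * 2 ^ S.card := by
    rw [sum_congr rfl (fun w _ => h1 w), ← sum_filter, sum_const, nsmul_eq_mul]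
  have h3 : ∑ w : Fin K → Bool, ∏ r ∈ S, (1 + sgn (bit R w r) * sgn (b r)) = 2 ^ K := by
    simp only [prod_one_add]
    rw [sum_comm, sum_eq_single ∅]
    · simp
    · intro T hT hT0
      have e : ∀ w : Fin K → Bool, ∏ r ∈ T, sgn (bit R w r) * sgn (b r) = (∏ r ∈ T, sgn (b r)) * ∏ r ∈ T, sgn (bit R w r) := by
        intro w
        rw [prod_mul_distrib, mul_comm]
      rw [sum_congr rfl (fun w _ => e w), ← mul_sum,
        char_zero R T (hS T (mem_powerset.1 hT) (nonempty_iff_ne_empty.2 hT0)), mul_zero]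
    · intro h
      exact absurd (empty_mem_powerset S) h
  rw [h2] at h3
  have h4 : #(univ.filter (fun w : Fin K → Bool => ∀ r ∈ S, bit R w r = b r)) * 2 ^ S.card = 2 ^ K := by exact_mod_cast h3
  exact h4.le

end Pool.Agent.J4H42.MC
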